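import Pool.Agent.Lib.MP_632be6_co.Whole

/-!
# The wreath product over a group of automorphisms: class 1 is inherited from the first factor

`G ρ G'` of the problem is `wreath G G' ⊤`, the Cartesian product `G □ G'` is `wreath G G' ⊥`.
-/

set_option autoImplicit false

namespace Pool.Agent.Results.MP_632be6_co.OrbitWreath

open Classical Finset Pool.Agent.Lib.MP_632be6_co

universe u v

/-- The chromatic index of a finite graph: the least number of colours in a colouring of the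
edges in which distinct edges sharing an endpoint receive distinct colours. -/
noncomputable def chromaticIndex {V : Type u} (H : SimpleGraph V) : ℕ :=
  sInf {k : ℕ | ∃ c : H.edgeSet → Fin k, ∀ e f : H.edgeSet,
    e ≠ f → (∃ x, x ∈ e.1 ∧ x ∈ f.1) → c e ≠ c f}

/-- The wreath product of `G` and `G'` with respect to a group `Γ` of automorphisms of `G'`:
`(x, x')` and `(y, y')` are adjacent if `x = y` and `x' y'` is an edge of `G'`, or if `x y` is an
edge of `G` and some `φ` in `Γ` maps `x'` to `y'`.  The wreath product `G ρ G'` is the case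
`Γ = ⊤`, in which `Γ` is the group of all automorphisms of `G'`. -/
def wreath {V : Type u} {W : Type v} (G : SimpleGraph V) (G' : SimpleGraph W)
    (Γ : Subgroup (G' ≃g G')) : SimpleGraph (V × W) where
  Adj p q := (p.1 = q.1 ∧ G'.Adj p.2 q.2) ∨ (G.Adj p.1 q.1 ∧ ∃ φ ∈ Γ, φ p.2 = q.2)
  symm := ⟨by
    rintro p q (⟨h1, h2⟩ | ⟨h1, φ, hφ, h2⟩)
    · exact Or.inl ⟨h1.symm, h2.symm⟩
    · exact Or.inr ⟨h1.symm, φ⁻¹, Γ.inv_mem hφ, by rw [← h2]; exact φ.symm_apply_apply p.2⟩⟩
  loopless := ⟨by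
    rintro p (⟨_, h⟩ | ⟨h, _⟩)
    · exact G'.irrefl h
    · exact G.irrefl h⟩

/-- The orbit relation of `Γ`. -/
def orbΓ {W : Type v} (A : SimpleGraph W) (Γ : Subgroup (A ≃g A)) (u v : W) : Prop :=
  ∃ φ ∈ Γ, φ u = v

theorem orbΓ_equiv {W : Type v} (A : SimpleGraph W) (Γ : Subgroup (A ≃g A)) :
    Equivalence (orbΓ A Γ) := by
  refine ⟨fun u => ⟨1, Γ.one_mem, rfl⟩, ?_, ?_⟩
  · rintro u v ⟨φ, hφ, h⟩
    exact ⟨φ⁻¹, Γ.inv_mem hφ, by rw [← h]; exact φ.symm_apply_apply u⟩
  · rintro u v w ⟨φ, hφ, h⟩ ⟨ψ, hψ, h'⟩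
    exact ⟨ψ * φ, Γ.mul_mem hψ hφ, by rw [← h', ← h]; rfl⟩

theorem orbΓ_adj {W : Type v} (A : SimpleGraph W) (Γ : Subgroup (A ≃g A)) (u v v' : W)
    (h : orbΓ A Γ v v') (hadj : A.Adj u v) : ∃ u', orbΓ A Γ u u' ∧ A.Adj u' v' := by
  obtain ⟨φ, hφ, rfl⟩ := h
  exact ⟨φ u, ⟨φ, hφ, rfl⟩, φ.map_adj_iff.mpr hadj⟩

theorem orbΓ_rdeg {W : Type v} [Fintype W] (A : SimpleGraph W) (Γ : Subgroup (A ≃g A))
    (u v : W) (h : orbΓ A Γ u v) : rdeg A (orbΓ A Γ) u = rdeg A (orbΓ A Γ) v := by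
  have h0 := h
  obtain ⟨φ, hφ, rfl⟩ := h
  unfold rdeg
  apply Finset.card_bij (fun w _ => φ w)
  · intro w hw
    obtain ⟨h1, h2⟩ := Finset.mem_filter.mp hw
    rw [Finset.mem_filter, mem_cls]
    refine ⟨?_, φ.map_adj_iff.mpr h2⟩
    exact (orbΓ_equiv A Γ).trans ((orbΓ_equiv A Γ).symm h0)
      ((orbΓ_equiv A Γ).trans (mem_cls.mp h1) ⟨φ, hφ, rfl⟩)
  · intro w _ w' _ h
    exact φ.injective h
  · intro w hw
    obtain ⟨h1, h2⟩ := Finset.mem_filter.mp hw
    refine ⟨φ.symm w, ?_, by simp⟩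
    rw [Finset.mem_filter, mem_cls]
    constructor
    · exact (orbΓ_equiv A Γ).trans h0
        ((orbΓ_equiv A Γ).trans (mem_cls.mp h1) ⟨φ⁻¹, Γ.inv_mem hφ, rfl⟩)
    · rw [← φ.map_adj_iff]
      simpa using h2

/-- A proper edge colouring needs at least maximum degree many colours. -/
theorem le_of_colouring {V : Type u} [Fintype V] (H : SimpleGraph V) (k : ℕ)
    (h : ∃ c : H.edgeSet → Fin k, ∀ e f : H.edgeSet,
      e ≠ f → (∃ x, x ∈ e.1 ∧ x ∈ f.1) → c e ≠ c f) : H.maxDegree ≤ k := by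
  obtain ⟨c, hc⟩ := h
  by_cases hne : Nonempty V
  · obtain ⟨v, hv⟩ := H.exists_maximal_degree_vertex
    rw [hv, ← SimpleGraph.card_neighborFinset_eq_degree]
    have hadj : ∀ w : H.neighborFinset v, H.Adj v w.1 := fun w => by
      have := w.2
      rwa [SimpleGraph.mem_neighborFinset] at this
    have : Fintype.card (H.neighborFinset v) ≤ Fintype.card (Fin k) := by
      apply Fintype.card_le_of_injective
        (fun w : H.neighborFinset v => c ⟨s(v, w.1), hadj w⟩)
      intro w w' he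
      by_contra hne
      refine hc ⟨s(v, w.1), hadj w⟩ ⟨s(v, w'.1), hadj w'⟩ ?_ ⟨v, by simp, by simp⟩ he
      intro h
      apply hne
      exact Subtype.ext (Sym2.congr_right.mp (congrArg Subtype.val h))
    rwa [Fintype.card_coe, Fintype.card_fin] at this
  · rw [not_nonempty_iff] at hne
    simp

/-- The colouring of the wreath product. -/
theorem colouring {V : Type u} {W : Type v} [Fintype V] [Fintype W] (G : SimpleGraph V)
    (G' : SimpleGraph W) (Γ : Subgroup (G' ≃g G')) (hG : ∃ x y, G.Adj x y)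
    (hcol : ∃ c : G.edgeSet → Fin G.maxDegree, ∀ e f : G.edgeSet,
      e ≠ f → (∃ x, x ∈ e.1 ∧ x ∈ f.1) → c e ≠ c f) :
    ∃ c : (wreath G G' Γ).edgeSet → Fin (wreath G G' Γ).maxDegree,
      ∀ e f : (wreath G G' Γ).edgeSet, e ≠ f → (∃ x, x ∈ e.1 ∧ x ∈ f.1) → c e ≠ c f := by
  obtain ⟨c, hc⟩ := hcol
  set H := wreath G G' Γ with hH
  have hadjH : ∀ p r, H.Adj p r ↔ PAdj G G' (orbΓ G' Γ) p r := fun p r => Iff.rfl
  -- `G` has a vertex of maximal degree, at least one
  obtain ⟨a, b, hab⟩ := hG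
  have hVne : Nonempty V := ⟨a⟩
  obtain ⟨x0, hx0⟩ := G.exists_maximal_degree_vertex
  have hD : 1 ≤ G.maxDegree := by
    have h2 : 0 < G.degree a := by
      rw [← SimpleGraph.card_neighborFinset_eq_degree, Finset.card_pos]
      exact ⟨b, by simpa using hab⟩
    have h3 := G.degree_le_maxDegree a
    omega
  -- degrees in `H`
  have hΔ : ∀ v : W, (univ.filter (fun y => G'.Adj v y)).card +
      G.maxDegree * (cls (orbΓ G' Γ) v).card ≤ H.maxDegree := by
    intro v
    refine le_trans ?_ (H.degree_le_maxDegree (x0, v))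
    rw [← SimpleGraph.card_neighborFinset_eq_degree, hx0,
      ← SimpleGraph.card_neighborFinset_eq_degree, ← Finset.card_product,
      ← Finset.card_map (⟨fun y : W => (x0, y), fun _ _ h => (Prod.mk.inj h).2⟩ : W ↪ V × W),
      ← Finset.card_union_of_disjoint]
    · apply Finset.card_le_card
      intro p hp
      rw [SimpleGraph.mem_neighborFinset, hadjH]
      rw [Finset.mem_union] at hp
      rcases hp with hp | hp
      · obtain ⟨y, hy, rfl⟩ := Finset.mem_map.mp hp
        exact Or.inl ⟨rfl, (Finset.mem_filter.mp hy).2⟩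
      · obtain ⟨h1, h2⟩ := Finset.mem_product.mp hp
        exact Or.inr ⟨by simpa using h1, mem_cls.mp h2⟩
    · rw [Finset.disjoint_left]
      intro p hp hp'
      obtain ⟨y, hy, rfl⟩ := Finset.mem_map.mp hp
      obtain ⟨h1, _⟩ := Finset.mem_product.mp hp'
      rw [SimpleGraph.mem_neighborFinset] at h1
      exact G.irrefl (show G.Adj x0 x0 from h1)
  -- the colouring of `G` as a function of two vertices
  set g : V → V → ℕ := fun x y => if h : G.Adj x y then (c ⟨s(x, y), h⟩).val else 0 with hg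
  have g_symm : ∀ x y, g x y = g y x := by
    intro x y
    simp only [hg]
    by_cases h : G.Adj x y
    · rw [dif_pos h, dif_pos h.symm]
      have : (⟨s(x, y), h⟩ : G.edgeSet) = ⟨s(y, x), h.symm⟩ := Subtype.ext Sym2.eq_swap
      rw [this]
    · rw [dif_neg h, dif_neg (fun h' => h h'.symm)]
  have g_lt : ∀ x y, G.Adj x y → g x y < G.maxDegree := by
    intro x y h
    simp only [hg]
    rw [dif_pos h]
    exact (c _).isLt
  have g_inj : ∀ x y y', G.Adj x y → G.Adj x y' → g x y = g x y' → y = y' := by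
    intro x y y' hy hy' he
    simp only [hg] at he
    rw [dif_pos hy, dif_pos hy'] at he
    by_contra hne
    refine hc ⟨s(x, y), hy⟩ ⟨s(x, y'), hy'⟩ ?_ ⟨x, by simp, by simp⟩ (Fin.ext he)
    intro h
    apply hne
    exact Sym2.congr_right.mp (congrArg Subtype.val h)
  obtain ⟨cc, h1, h2, h3⟩ := whole G G.maxDegree hD g g_symm g_lt g_inj
    G' (orbΓ G' Γ) (orbΓ_equiv G' Γ) (orbΓ_adj G' Γ) (orbΓ_rdeg G' Γ) H.maxDegree hΔ
  -- transfer to the edge set
  let c2 : V × W → V × W → ℕ := fun p r => if H.Adj p r then cc p r else 0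
  have c2_symm : ∀ p r, c2 p r = c2 r p := by
    intro p r
    simp only [c2]
    by_cases h : H.Adj p r
    · rw [if_pos h, if_pos h.symm]
      exact h2 p r ((hadjH p r).mp h)
    · rw [if_neg h, if_neg (fun h' => h h'.symm)]
  let col : Sym2 (V × W) → ℕ := Sym2.lift ⟨c2, c2_symm⟩
  have hcol : ∀ p r, H.Adj p r → col s(p, r) = cc p r := by
    intro p r h
    change c2 p r = cc p r
    simp only [c2]
    rw [if_pos h]
  have hlt : ∀ e : H.edgeSet, col e.1 < H.maxDegree := by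
    rintro ⟨e, he⟩
    induction e using Sym2.ind with
    | _ p r =>
      have h : H.Adj p r := he
      change col s(p, r) < _
      rw [hcol p r h]
      exact h1 p r ((hadjH p r).mp h)
  refine ⟨fun e => ⟨col e.1, hlt e⟩, ?_⟩
  rintro ⟨e, he⟩ ⟨f, hf⟩ hef ⟨v, hve, hvf⟩ heq
  obtain ⟨y, rfl⟩ := hve
  obtain ⟨z, rfl⟩ := hvf
  have hy : H.Adj v y := he
  have hz : H.Adj v z := hf
  have heq' : col s(v, y) = col s(v, z) := congrArg Fin.val heq
  rw [hcol v y hy, hcol v z hz] at heq'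
  have h4 := h3 v y z ((hadjH _ _).mp hy) ((hadjH _ _).mp hz) heq'
  exact hef (Subtype.ext (congrArg (fun t => s(v, t)) h4))

/-- If `G` has an edge and `χ'(G) = Δ(G)`, then for every finite graph `G'` and every group `Γ` of
automorphisms of `G'` the wreath product over `Γ` has chromatic index equal to its maximum
degree. -/
theorem result {V : Type u} {W : Type v} [Fintype V] [Fintype W] (G : SimpleGraph V)
    (G' : SimpleGraph W) (Γ : Subgroup (G' ≃g G')) (hG : ∃ x y, G.Adj x y)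
    (hχ : chromaticIndex G = G.maxDegree) :
    chromaticIndex (wreath G G' Γ) = (wreath G G' Γ).maxDegree := by
  have hne : {k : ℕ | ∃ c : G.edgeSet → Fin k, ∀ e f : G.edgeSet,
      e ≠ f → (∃ x, x ∈ e.1 ∧ x ∈ f.1) → c e ≠ c f}.Nonempty := by
    refine ⟨Fintype.card G.edgeSet, Fintype.equivFin _, fun e f hef _ h => hef ?_⟩
    exact (Fintype.equivFin _).injective h
  have hmem := Nat.sInf_mem hne
  have hmem' : ∃ c : G.edgeSet → Fin G.maxDegree, ∀ e f : G.edgeSet,
      e ≠ f → (∃ x, x ∈ e.1 ∧ x ∈ f.1) → c e ≠ c f := by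
    rw [← hχ]
    exact hmem
  have hc := colouring G G' Γ hG hmem'
  apply le_antisymm
  · exact Nat.sInf_le hc
  · exact le_csInf ⟨_, hc⟩ fun k hk => le_of_colouring _ k hk

/-- The open problem itself, `Γ` being the group of all automorphisms. -/
theorem full_group {V : Type u} {W : Type v} [Fintype V] [Fintype W] (G : SimpleGraph V)
    (G' : SimpleGraph W) (hG : ∃ x y, G.Adj x y) (hχ : chromaticIndex G = G.maxDegree)
    (H : SimpleGraph (V × W))
    (hH : ∀ p q, H.Adj p q ↔ (p.1 = q.1 ∧ G'.Adj p.2 q.2) ∨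
      (G.Adj p.1 q.1 ∧ ∃ φ : G' ≃g G', φ p.2 = q.2)) :
    chromaticIndex H = H.maxDegree := by
  have : H = wreath G G' ⊤ := by
    ext p q
    rw [hH]
    change _ ↔ (p.1 = q.1 ∧ G'.Adj p.2 q.2) ∨
      (G.Adj p.1 q.1 ∧ ∃ φ ∈ (⊤ : Subgroup (G' ≃g G')), φ p.2 = q.2)
    simp
  rw [this]
  exact result G G' ⊤ hG hχ

end Pool.Agent.Results.MP_632be6_co.OrbitWreath
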